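import Pool.Agent.H.MP_562679_an.A

set_option autoImplicit false
open MeasureTheory

namespace Pool.Agent.Results.MP_562679_an.Curse

def lpBall (p : ℝ) (d : ℕ) (r : ℝ) : Set (EuclideanSpace ℝ (Fin d)) :=
  {x | ∑ i, |x i / r| ^ p < 1}

def cls {d : ℕ} (D : Set (EuclideanSpace ℝ (Fin d))) : Set (EuclideanSpace ℝ (Fin d) → ℝ) :=
  {f | ContDiffOn ℝ 2 f D ∧ (∀ y ∈ D, |f y| ≤ 1) ∧
    (∀ y ∈ D, ∀ z ∈ D, |f y - f z| ≤ (Real.sqrt (d : ℝ))⁻¹ * dist y z) ∧
    ∀ θ : EuclideanSpace ℝ (Fin d), ‖θ‖ = 1 → ∀ y ∈ D, ∀ z ∈ D,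
      |fderiv ℝ f y θ - fderiv ℝ f z θ| ≤ ((d : ℝ))⁻¹ * dist y z}

def info {X : Type} (next : List ℝ → X) (f : X → ℝ) : ℕ → List ℝ
  | 0 => []
  | k + 1 => f (next (info next f k)) :: info next f k

noncomputable def err {d : ℕ} (D : Set (EuclideanSpace ℝ (Fin d))) (n : ℕ) : ENNReal :=
  ⨅ (next : List ℝ → EuclideanSpace ℝ (Fin d)) (_ : ∀ l, next l ∈ D) (out : List ℝ → ℝ),
    ⨆ (f : EuclideanSpace ℝ (Fin d) → ℝ) (_ : f ∈ cls D),
      ENNReal.ofReal |(∫ y in D, f y) - out (info next f n)|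

theorem result :
    ∃ C γ ε₀ : ℝ, 0 < C ∧ 0 < γ ∧ 0 < ε₀ ∧ ∀ p : ℝ, 0 < p → ∀ d : ℕ, 1 ≤ d →
      (∃ r : ℝ, 0 < r ∧ volume (lpBall p d r) = 1) ∧
      ∀ r : ℝ, 0 < r → volume (lpBall p d r) = 1 →
        ∀ ε : ℝ, 0 < ε → ε ≤ ε₀ → ∀ n : ℕ, err (lpBall p d r) n ≤ ENNReal.ofReal ε →
          C * (1 + γ) ^ d ≤ n := by
  obtain ⟨c, hc, H⟩ := Pool.Agent.H.MP_562679_an.fool
  refine ⟨1, 1, c / 8, one_pos, one_pos, by positivity, fun p hp d hd => ?_⟩
  obtain ⟨ho, hex⟩ := Pool.Agent.H.MP_562679_an.ball_facts p hp d hd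
  refine ⟨hex, fun r _ hv ε hε hε' n he => ?_⟩
  have hlt : err (lpBall p d r) n < ENNReal.ofReal (2 * ε) :=
    he.trans_lt ((ENNReal.ofReal_lt_ofReal_iff (by positivity)).2 (by linarith))
  unfold err at hlt
  simp only [iInf_lt_iff] at hlt
  obtain ⟨next, hnext, out, hlt⟩ := hlt
  obtain ⟨f, f1, f2, f3, f4, f5, f6⟩ := H d hd (lpBall p d r) (ho r) hv (n + 1) (by omega)
    (fun i => next (info next (fun _ => 0) i)) (fun i => hnext _)
  have hi : ∀ g : EuclideanSpace ℝ (Fin d) → ℝ,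
      (∀ i : Fin (n + 1), g (next (info next (fun _ => 0) i)) = 0) →
      ∀ k ≤ n, info next g k = info next (fun _ => 0) k := by
    intro g hg k
    induction k with
    | zero => intro _; rfl
    | succ k ih =>
      intro hk
      have h1 := hg ⟨k, by omega⟩
      simp only [info]
      rw [ih (by omega), h1]
  have bound : ∀ g ∈ cls (lpBall p d r),
      |(∫ y in lpBall p d r, g y) - out (info next g n)| < 2 * ε := by
    intro g hg
    have := lt_of_le_of_lt (le_iSup₂ (f := fun g (_ : g ∈ cls (lpBall p d r)) =>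
      ENNReal.ofReal |(∫ y in lpBall p d r, g y) - out (info next g n)|) g hg) hlt
    exact (ENNReal.ofReal_lt_ofReal_iff (by positivity)).1 this
  have b1 := bound f ⟨f1, f2, f3, f4⟩
  have b2 := bound (fun y => -f y) ⟨f1.neg, fun y hy => by simpa using f2 y hy,
    fun y hy z hz => by
      rw [show -f y - -f z = -(f y - f z) by ring, abs_neg]; exact f3 y hy z hz,
    fun θ hθ y hy z hz => by
      rw [fderiv_fun_neg, fderiv_fun_neg]
      simp only [ContinuousLinearMap.neg_apply]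
      rw [show ∀ a b : ℝ, -a - -b = -(a - b) from fun a b => by ring, abs_neg]
      exact f4 θ hθ y hy z hz⟩
  rw [hi f f5 n le_rfl] at b1
  rw [hi (fun y => -f y) (fun i => by simp [f5 i]) n le_rfl, integral_neg] at b2
  have b3 : |∫ y in lpBall p d r, f y| < c / 4 := by
    rw [abs_lt] at b1 b2 ⊢
    constructor <;> linarith [b1.1, b1.2, b2.1, b2.2]
  have b4 : ((n + 1 : ℕ) : ℝ) ^ (-(2 : ℝ) / (d : ℝ)) < 1 / 4 := by
    by_contra h
    push Not at h
    nlinarith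
  have d0 : (0 : ℝ) < d := by exact_mod_cast hd
  have b5 : (2 : ℝ) ^ d < ((n + 1 : ℕ) : ℝ) := by
    by_contra h
    push Not at h
    have h1 : ((2 : ℝ) ^ d) ^ (-(2 : ℝ) / (d : ℝ)) ≤ ((n + 1 : ℕ) : ℝ) ^ (-(2 : ℝ) / (d : ℝ)) :=
      Real.rpow_le_rpow_of_nonpos (by positivity) h
        (div_nonpos_of_nonpos_of_nonneg (by norm_num) d0.le)
    rw [← Real.rpow_natCast, ← Real.rpow_mul (by norm_num),
      show (d : ℝ) * (-2 / d) = -2 by field_simp] at h1
    norm_num at h1 b4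
    linarith
  have b6 : 2 ^ d ≤ n := by
    have : 2 ^ d < n + 1 := by exact_mod_cast b5
    omega
  have : ((2 ^ d : ℕ) : ℝ) ≤ n := by exact_mod_cast b6
  push_cast at this
  norm_num
  exact this

end Pool.Agent.Results.MP_562679_an.Curse
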